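import Pool.Agent.T3h73.SG.All

/-!
# Twists of the Jacobians of generic superelliptic curves: the `ℓ`-part of `Ш` and of the Mordell-Weil
# group is zero for most twists

Let `ℓ` be an odd prime, `K` a number field which contains the `ℓ`-th roots of unity and `F ∈ K[x]` a monic
irreducible polynomial of degree `n ≥ 2`. Let `M` be its splitting field and `G` the Galois group of `M` over
`K`. We assume that the order of `G` is prime to `ℓ` and that `G` is doubly transitive on the roots of `F`
(then `n` is prime to `ℓ`). For `n < ℓ` this is the generic case `G = S_n`; `A_n` for `n ≥ 4` and all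
the other doubly transitive groups of order prime to `ℓ` are included; for `n = 2` it means that `F` is
irreducible. For `δ ∈ K^*` let `J(δ)` be the Jacobian, of dimension `(n - 1) (ℓ - 1) / 2`, of the
superelliptic curve

`y ^ ℓ = δ F(x)`.

It depends only on the class of `δ` in `K^* / K^{*ℓ}`, and the classes are ordered by the height
`ht δ = ∏ N(v) ^ (v(δ) mod ℓ)`.

Theorem. In the family of ALL classes `δ` (with prescribed class in the completions at a finite set `S₀` of
primes) the proportion, in the sense of the logarithmic (Dirichlet) density, of the classes for which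

* the `ℓ`-primary part of the Tate-Shafarevich group of `J(δ)` over `K` is zero and
* `J(δ)(K)` is finite and has no `ℓ`-torsion

is at least `κ = ∏_{i ≥ 1} (1 + ℓ ^ (-i))⁻¹ ≥ 1 - ℓ / (ℓ ^ 2 - 1)` (`0.639...` for `ℓ = 3`, `0.793...` for
`ℓ = 5`), for every `n` and every dimension. For a set `A` of exponents prime to `ℓ` the proportion of the `δ`
for which all the `J(δ ^ a)`, `a ∈ A`, have this property is at least `1 - |A| (1 - κ)`; for all `ℓ - 1`
powers, which give all the nontrivial twists of `J(1)` by the characters of the cyclic extension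
`K(δ ^ (1/ℓ))`, this is at least `1 / (ℓ + 1)`. By restriction of scalars one gets abelian varieties over `ℚ`
of dimension `[K : ℚ] (n - 1) (ℓ - 1) / 2`.

For the polynomials `F` with all roots in `K` the same is proved in
`Pool.Agent.Results.MP_a43263_nt.SuperellipticTwistDensity`, for most choices of the roots; there the torsion
has order `ℓ ^ (n - 1)` for all twists, here it is zero.

Proof. (1) Descent with `1 - ζ`. As the order of `G` is prime to `ℓ`, the Selmer group of `J(δ)` over `K` is
the part fixed by `G` of a group of families `x_1, ..., x_n` in `M^* / M^{*ℓ}` with product `1`, one for each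
root of `F`. At the primes `p` of `K` which divide `δ` the local condition is the image of the torsion
points, a space of dimension `c_p - 1` where `c_p` is the number of the orbits of the Frobenius of `p`
on the roots. (2) The equivariant law of reciprocity: by the reciprocity law of degree `ℓ` over `M` the order
of the Selmer group is the number of solutions of a linear system whose coefficients are the power residue
symbols, in `M`, of the primes above the pairs of the primes of `δ`. The symbols for a prime `P` of
`M` above `p` and the conjugates of a prime above `q` are independent for the double cosets of the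
decomposition groups. (3) The `k`-th moment is a sum over the colourings of the primes of `δ` with the
elements of the spaces of functions on the orbits of the Frobenius, with values in `𝔽_ℓ ^ (2k)`. The terms
with two oscillating colours are estimated with a large sieve for the symbols of order `ℓ` over `M` and
Chebotarev's density theorem in the ray class fields of `M`, uniformly in the modulus; `L`-functions
of the fixed fields of the decomposition groups are used. (4) The main terms come from the
`G`-stable maximal isotropic subspaces of `W ⊗ 𝔽_ℓ ^ (2k)`, where `W` is the space of the vectors of sum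
zero in `𝔽_ℓ ^ n`. As `W` is absolutely irreducible, these are the `W ⊗ Y`, `Y` maximal isotropic in
`𝔽_ℓ ^ (2k)`, and all have the same density by the theorem of Burnside on the average number of fixed
points. So the moments of the order of the Selmer group tend to `∏_{i < k} (ℓ ^ i + 1)`. (5) The moments
determine the lower bound `κ` for the proportion of the `δ` with Selmer group zero, by the positivity of
Euler's polynomials.

The definitions are in `Pool.Agent.T3h73.SG.Def` (`Rat`, `Zero`), `Pool.Agent.T3h73.SD.Def` (the height and the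
sums) and `Pool.Agent.Y713.SE.Stm` (the Jacobian). Parts of the proof were formalised by helpers 7, 10, 11,
24, 25, 45, 46, 47, 49, 66, 69, 74, 85, 88, 91 and, for the part shared with the case of rational branch
points, by helpers 1, 2, 3, 4, 11, 20, 25, 26, 31, 32, 33, 36, 46, 55, 59, 60, 62, 64, 71, 84, 85, 86, 87, 91, 92,
93 and 97.
-/

set_option autoImplicit false

open IsDedekindDomain NumberField Filter Topology Polynomial

namespace Pool.Agent.Results.MP_a43263_nt.GenericSuperellipticTwists

open Pool.Agent.T3h73.SD.Def

/-- Let `ℓ` be an odd prime, `K` a number field with a primitive `ℓ`-th root of unity, `F ∈ K[x]` monic and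
irreducible of degree `≥ 2`, such that the Galois group of its splitting field over `K` has order prime to
`ℓ` and is doubly transitive on the roots of `F`. Let `S₀` be a finite set of primes of `K`, `η ∈ K^*` and
`A` a nonempty subset of `{1, ..., ℓ - 1}`. The sum `∑ ht(δ) ^ (-s)` over the classes `δ ∈ K^* / K^{*ℓ}`
converges for `s > 1`; its part `csum ℓ (Near ℓ S₀ η) s` over the classes with `δ / η` an `ℓ`-th power in
`K_v` for all `v ∈ S₀` tends to infinity for `s → 1`; and for all `ε > 0` the `δ` in this family for which
all the Jacobians `J`, `a ∈ A`, of `y ^ ℓ = δ ^ a F(x)` have trivial `ℓ`-primary part of the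
Tate-Shafarevich group over `K` and bijective multiplication by `ℓ` on `J(K)` (`Zero`; so that `J(K)` is
finite of order prime to `ℓ` by the theorem of Mordell and Weil) contribute at least the proportion
`1 - |A| (1 - κ) - ε` of this sum, for all `s > 1` close enough to `1`, with
`κ = ∏_{i ≥ 1} (1 + ℓ ^ (-i))⁻¹ ≥ 1 - ℓ / (ℓ ^ 2 - 1)`. -/
theorem result (ℓ : ℕ) (hℓ : ℓ.Prime) (h2 : ℓ ≠ 2) (K : Type) [Field K] [NumberField K] (ζ : K)
    (hζ : IsPrimitiveRoot ζ ℓ) (F : K[X]) (hirr : Irreducible F) (hm : F.Monic)
    (hn2 : 2 ≤ F.natDegree) (hG : ¬ ℓ ∣ Nat.card (F.SplittingField ≃ₐ[K] F.SplittingField))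
    (h2t : ∀ a b c d : F.SplittingField, aeval a F = 0 → aeval b F = 0 → aeval c F = 0 →
      aeval d F = 0 → a ≠ b → c ≠ d → ∃ g : F.SplittingField ≃ₐ[K] F.SplittingField,
        g a = c ∧ g b = d)
    (S₀ : Finset (HeightOneSpectrum (𝓞 K))) (η : Kˣ)
    (A : Finset ℕ) (hA : A.Nonempty) (hA' : ∀ a ∈ A, 1 ≤ a ∧ a < ℓ) :
    (∀ s : ℝ, 1 < s → Summable (fun c : Kˣ ⧸ (powMonoidHom ℓ : Kˣ →* Kˣ).range =>
      ht ℓ (Quotient.out c) ^ (-s))) ∧
    Tendsto (fun s : ℝ => csum ℓ (Near ℓ S₀ η) s) (𝓝[>] 1) atTop ∧
    1 - (ℓ : ℝ) / ((ℓ : ℝ) ^ 2 - 1) ≤ ∏' i : ℕ, (1 + ((ℓ : ℝ) ^ (i + 1))⁻¹)⁻¹ ∧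
    ∀ ε : ℝ, 0 < ε → ∀ᶠ s : ℝ in 𝓝[>] 1,
      (1 - A.card * (1 - ∏' i : ℕ, (1 + ((ℓ : ℝ) ^ (i + 1))⁻¹)⁻¹) - ε) * csum ℓ (Near ℓ S₀ η) s ≤
        csum ℓ (fun δ => Near ℓ S₀ η δ ∧ ∀ a ∈ A,
          Pool.Agent.T3h73.SG.Def.Zero ℓ K (C ((δ : K) ^ a) * F)) s :=
  let h := Pool.Agent.T3h73.SG.final hℓ h2 hζ F hirr hm hn2
    (Pool.Agent.T3h73.SG.Symm.big2 hℓ F hirr.ne_zero hG h2t) S₀ η A hA hA'
  ⟨h.1, h.2.1, Pool.Agent.T3h73.SD.Uni.kap_ge hℓ.two_le, h.2.2⟩

end Pool.Agent.Results.MP_a43263_nt.GenericSuperellipticTwists
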