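import Pool.Agent.T3h73.TK.Tower

/-!
# At least 42.5 percent of ALL twists of `y² + y = x³` by characters of order `3 ^ k`: nonvanishing of the
# `L`-value and the exact `3`-part

`K = ℚ(w)`, `E : y² + y = x³`, `k ≥ 2`. We consider ALL the products `χ` of characters `λ_π` of exact
order `3 ^ k` modulo `π`, where `π` runs through a finite set `P` of Eisenstein primes `1` modulo `3`
of norm `1` modulo `3 ^ (k + 1)`, ordered by the norm of the conductor. For each `χ` let `A / K` be the
abelian variety of dimension `3 ^ (k - 1)`, the twist of `E ⊗ ℤ[ζ]` by `χ` (`ζ` of order `3 ^ k`), and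
`B / ℚ` its restriction of scalars, of dimension `2 · 3 ^ (k - 1)`.

Among all these `χ` a proportion of at least `(2 / 3) ∏_{i ≥ 1} (1 + 3 ^ (-i))⁻¹ = 0.4260...` (lower
Dirichlet density) has the property: the `L`-functions are entire,
`L(B, 1) = Ω ^ (2 · 3 ^ (k - 1)) · 3 ^ (#P - 1)` up to a unit above `3`, in particular it is not zero,
`A(K) = B(ℚ)` has order `3` and the `3`-primary part of `Ш(A / K) = Ш(B / ℚ)` is zero; and the same holds
for all the powers `χ ^ (3 ^ j)` of order at least `9`, with their `A` and `B`, simultaneously. If `F / K` is
the cyclic extension of degree `3 ^ k` that belongs to `χ`, and `F'` its subfield of degree `3` over `K`, then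
these `A` are, up to isogeny, the part of the restriction of scalars of `E` from `F` to `K` that is not in the
one from `F'`.

The proof. For one `χ` the starting library (`MP_dfae13_nt/ThreePartTwists`, `Pool.Agent.Y715.T`) gives
the property if the Laplacian over `𝔽₃` of the graph of the cubic residue symbols of the elements of
`P`, weighted with the exponents `e` of `χ` (`λ_π ^ (3 ^ (k - 1))` is the `e_π`-th power of the cubic
symbol), has the constants as its kernel, and if `∏ π ^ e_π` is not `1` modulo `9`. New is the
distribution: all moments of the order of the kernel over the whole family, jointly with the class modulo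
`9`, by the method of Fouvry, Klüners, Heath-Brown: coloured sums over the finite sets of the places of
`K` that split completely in `K(ζ_{3 ^ (k + 1)})`, bilinear estimates by a large sieve for ray class
characters, characters of small conductor, the maximal unlinked sets of colours (totally isotropic
subspaces of a hyperbolic quadratic space over `𝔽₃`), and Bonferroni inequalities with Euler's
identity. Project TK (`Pool/Agent/T3h73/TK`), based on project SD (`Pool/Agent/T3h73/SD`).
-/

set_option autoImplicit false

namespace Pool.Agent.Results.MP_a43263_nt.OrderThreePowerTwists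

open Pool.Agent.T3h73.TK.Def2 Pool.Agent.T3h73.TK.Def3

/-- **Main theorem.** -/
theorem result (k : ℕ) (hk : 2 ≤ k) :
    -- the sums over the family converge for `s > 1`, and tend to infinity for `s → 1`
    Convergent k ∧ Divergent k ∧
    -- the constant
    0.425 < 2 / 3 * kappa ∧
    -- the lower density
    ∀ ε : ℝ, 0 < ε → AtLeast k (NiceTower k) (2 / 3 * kappa - ε) :=
  ⟨Pool.Agent.T3h73.TK.BKFin.convergent k hk, Pool.Agent.T3h73.TK.BKFin.divergent k hk,
    Pool.Agent.T3h73.TK.Num.num, Pool.Agent.T3h73.TK.Tower.atLeast_niceTower k hk⟩

end Pool.Agent.Results.MP_a43263_nt.OrderThreePowerTwists
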