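import Pool.Agent.T2h16.TG.Tower

/-!
# At least 20.97 percent of ALL twists of `y² = x³ - x` by characters of order `2 ^ k`: nonvanishing of the
# `L`-value and the exact `2`-part

`K = ℚ(i)`, `E : y² = x³ - x`, `k ≥ 3`. We consider ALL the products `χ` of characters `λ_π` of exact
order `2 ^ k` modulo `π`, where `π` runs through a finite set `P` of Gaussian primes `1` modulo `4`
of norm `1` modulo `2 ^ (k + 2)`, ordered by the norm of the conductor. For each `χ` let `A / K` be the
abelian variety of dimension `2 ^ (k - 2)`, the twist of `E ⊗ ℤ[ζ]` by `χ` (`ζ` of order `2 ^ k`), and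
`B / ℚ` its restriction of scalars, of dimension `2 ^ (k - 1)`.

Among all these `χ` a proportion of at least `(1 / 2) ∏_{i ≥ 1} (1 + 2 ^ (-i))⁻¹ = 0.2097...` (lower
Dirichlet density) has the property: the `L`-functions are entire,
`L(B, 1) = Ω ^ (2 ^ (k - 1)) 2 ^ (#P - 1)` up to a unit above `2`, in particular it is not zero,
`A(K) = B(ℚ)` has order `2` and the `2`-primary part of `Ш(A / K) = Ш(B / ℚ)` is zero; and the same holds
simultaneously for ALL the products of characters of exact order `2 ^ l`, `3 ≤ l ≤ k`, modulo the same `π`,
with their `A` and `B` (and for `l > k` too, if the `π` have norm `1` modulo `2 ^ (l + 2)`); among these are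
all the powers of `χ` of order at least `8`. If `F / K` is the cyclic
extension of degree `2 ^ k` that belongs to `χ`, and `F'` its subfield of degree `4` over `K`, then the `A`
for the powers `χ ^ (2 ^ j)` are, up to isogeny, the part of the restriction of scalars of `E` from `F` to
`K` that is not in the one from `F'`.

The proof. For one `χ` the starting library (`MP_dfae13_nt/TwoPartTwists`, `Pool.Agent.Y715`, in the
form `Q283.GA.concl_of`) gives the property if the Laplacian over `𝔽₂` of the graph of the quadratic
residue symbols of the elements of `P` has the constants as its kernel, and if `∏ π` is not `1` modulo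
`4 (1 + i)`. New is the distribution: all moments of the order of the kernel over the whole family,
jointly with the class modulo `4 (1 + i)`, by the method of Heath-Brown, Fouvry, Klüners: coloured sums
over the finite sets of the places of `K` that split completely in `K(ζ_{2 ^ (k + 2)})`, bilinear
estimates by a large sieve for ray class characters, characters of small conductor, the maximal unlinked
sets of colours (maximal totally singular subspaces of a hyperbolic quadratic space over `𝔽₂`),
quadratic reciprocity for all primary Gaussian primes, and Bonferroni inequalities with Euler's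
identity. The analytic part is the theorem `S_ANQ` of helper73's project TK
(`Pool/Agent/T3h73/TK`, based on project SD), proved there for all primes `ℓ`; the rest is project TG
(`Pool/Agent/T2h16/TG`), the analogue of TK for `p = 2`.
-/

set_option autoImplicit false

namespace Pool.Agent.Results.MP_a43263_nt.OrderTwoPowerTwists

open T2h16.TG.Def2 T2h16.TG.Def3

/-- **Main theorem.** -/
theorem result (k : ℕ) (hk : 3 ≤ k) :
    -- the sums over the family converge for `s > 1`, and tend to infinity for `s → 1`
    Convergent k ∧ Divergent k ∧
    -- the constant
    0.2097 < 1 / 2 * kappa ∧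
    -- the lower density
    ∀ ε : ℝ, 0 < ε → AtLeast k NiceAll (1 / 2 * kappa - ε) := by
  obtain ⟨h1, h0, -⟩ := T2h16.TG.all_MAIN2 k hk
  obtain ⟨e1, e2, -, e4⟩ := T2h16.TG.EQ2.t_EQ2
  refine ⟨fun s hs => ?_, ?_, T2h16.TG.NUM2.t_NUM2, T2h16.TG.Tower.atLeast_niceAll k hk⟩
  · refine (h1 s hs).congr fun x => ?_
    by_cases h : T2h16.TG.Def.Mem k x
    · rw [if_pos h, if_pos ((e1 k x).2 h), e2 x]
    · rw [if_neg h, if_neg fun h1 => h ((e1 k x).1 h1)]
  · exact h0.congr fun s => (e4 k _ s).symm

end Pool.Agent.Results.MP_a43263_nt.OrderTwoPowerTwists
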