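import Pool.Agent.T3h73.SN.All

/-!
# Superelliptic curves with rational branch points: the proportion of the twists with trivial `ℓ`-part of
# `Ш` and rank zero

Let `ℓ` be an odd prime, `K` any number field which contains the `ℓ`-th roots of unity, `n ≥ 2` prime to `ℓ`
and `e_1, ..., e_n` distinct elements of `K`. For `δ ∈ K^*` let `J(δ)` be the Jacobian, of dimension
`(n - 1) (ℓ - 1) / 2`, of the superelliptic curve

`y ^ ℓ = δ (x - e_1) ⋯ (x - e_n)`.

It depends only on the class of `δ` in `K^* / K^{*ℓ}`, and the classes are ordered by the height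
`ht δ = ∏ N(v) ^ (v(δ) mod ℓ)`. We assume (`Indep`) that a product of powers of the differences
`e_i - e_j`, `i < j`, with exponents of sum zero is an `ℓ`-th power in `K` only if all exponents are divisible
by `ℓ`; this is no condition for `n = 2`, for `n = 3` it means that `(e_1 - e_3) / (e_1 - e_2)` and
`(e_2 - e_3) / (e_1 - e_2)` are independent modulo `ℓ`-th powers, and for every `n` it is satisfied by
most `(e_1, ..., e_n)`.

Theorem. In the family of ALL classes `δ` (with prescribed class in the completions at a finite set `S₀` of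
primes) the proportion, in the sense of the logarithmic (Dirichlet) density, of the classes for which

* the `ℓ`-primary part of the Tate-Shafarevich group of `J(δ)` over `K` is zero and
* `J(δ)(K)` is finite and its `ℓ`-primary part is the group `(ℤ/ℓ) ^ (n - 1)` generated by the branch points

is at least `κ = ∏_{i ≥ 1} (1 + ℓ ^ (-i))⁻¹ ≥ 1 - ℓ / (ℓ ^ 2 - 1)` (`0.639...` for `ℓ = 3`, `0.793...` for
`ℓ = 5`), for every `n` and every dimension. For a set `A` of exponents prime to `ℓ` the proportion of the `δ`
for which all the `J(δ ^ a)`, `a ∈ A`, have this property is at least `1 - |A| (1 - κ)`; for all `ℓ - 1`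
powers, which give all the nontrivial twists of `J(1)` by the characters of the cyclic extension
`K(δ ^ (1/ℓ))`, this is at least `1 / (ℓ + 1)`. For `n ≥ 3` the Jacobians do not have complex
multiplication in general: their endomorphism ring is `ℤ[ζ]`.

By restriction of scalars one gets abelian varieties over `ℚ` of dimension
`[K : ℚ] (n - 1) (ℓ - 1) / 2`.

Proof. (1) Descent with `1 - ζ`. The Selmer group of a class `δ` with the ramified primes `P` outside a
large finite set `S` is a group of families `x_1, ..., x_n` in `K^* / K^{*ℓ}` with product `1`. At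
the primes of `P` the local condition is the image of the torsion points, which is given by `δ` and the
differences of the branch points, at the primes of `S` it is contained in a maximal isotropic group for the
sum of the Hilbert symbols. The isotropy is proved by a reciprocity law of Weil on the curve, with values
in the Brauer group; the comparison with the symbols of the reciprocity law uses the local norm index.
(2) By the reciprocity law of degree `ℓ` the order of the Selmer group is the number of the
solutions of a linear system whose coefficients are the symbols `(p / q)` of the pairs of primes in `P` and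
the symbols of the differences at the primes of `P`. (3) The `k`-th moment is a sum over the colourings of
`P` with `ℓ ^ (2 (n - 1) k)` colours. The terms with two oscillating colours are estimated with a large
sieve for the symbols of order `ℓ`. The main terms come from maximal unlinked sets of colours; these are
the cosets of the maximal isotropic subspaces `X` of `W ⊗ 𝔽_ℓ ^ (2k)`, where `W` is the space
of the vectors of sum zero in `𝔽_ℓ ^ n`, and the independence of the differences shows that only the `X`
of the form `W ⊗ Y` contribute, `Y` maximal isotropic in `𝔽_ℓ ^ (2k)`. So the moments of the order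
of the Selmer group divided by `ℓ ^ (n - 1)` tend to `∏_{i < k} (ℓ ^ i + 1)`. (4) The moments determine the
lower bound `κ` for the proportion of the minimal Selmer groups, by the positivity of Euler's polynomials.

The case `n = 2` (Jacobians with complex multiplication) is `Pool.Agent.T3h73.SD.Dens`. The definitions
are in `Pool.Agent.T3h73.SN.Def` (`Minimal`, `Indep`, `crv`), `Pool.Agent.T3h73.SD.Def` (the height and the
sums) and `Pool.Agent.Y713.SE.Stm` (the Jacobian). Parts of the proof were formalised by helpers 1, 2, 3, 4,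
11, 20, 25, 26, 31, 32, 33, 36, 46, 55, 59, 60, 62, 64, 71, 84, 85, 86, 87, 91, 92, 93 and 97.
-/

set_option autoImplicit false

open IsDedekindDomain NumberField Filter Topology

namespace Pool.Agent.Results.MP_a43263_nt.SuperellipticTwistDensity

open Pool.Agent.T3h73.SD.Def

/-- Let `ℓ` be an odd prime, `K` a number field with a primitive `ℓ`-th root of unity, `n ≥ 2` prime to `ℓ`,
`e_1, ..., e_n` distinct elements of `K` with independent differences (`Indep`), `S₀` a finite set of
primes of `K`, `η ∈ K^*` and `A` a nonempty subset of `{1, ..., ℓ - 1}`. The sum `∑ ht(δ) ^ (-s)` over the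
classes `δ ∈ K^* / K^{*ℓ}` converges for `s > 1`; its part `csum ℓ (Near ℓ S₀ η) s` over the classes with
`δ / η` an `ℓ`-th power in `K_v` for all `v ∈ S₀` tends to infinity for `s → 1`; and for all `ε > 0`
the `δ` in this family for which all the Jacobians `J`, `a ∈ A`, of `y ^ ℓ = δ ^ a ∏ (x - e_i)` have
trivial `ℓ`-primary part of the Tate-Shafarevich group and a subgroup `T ≤ J(K)` of order `ℓ ^ (n - 1)`
and exponent `ℓ` such that multiplication by `ℓ` is bijective on `J(K) / T` (`Minimal`; so that `J(K)` is
finite and `T` is its `ℓ`-primary part by the theorem of Mordell and Weil) contribute at least the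
proportion `1 - |A| (1 - κ) - ε` of this sum, for all `s > 1` close enough to `1`, with
`κ = ∏_{i ≥ 1} (1 + ℓ ^ (-i))⁻¹ ≥ 1 - ℓ / (ℓ ^ 2 - 1)`. -/
theorem result (ℓ : ℕ) (hℓ : ℓ.Prime) (h2 : ℓ ≠ 2) (n : ℕ) (hn : ¬ ℓ ∣ n) (hn2 : 2 ≤ n)
    (K : Type) [Field K] [NumberField K] (ζ : K) (hζ : IsPrimitiveRoot ζ ℓ)
    (e : Fin n → K) (he : Function.Injective e) (hind : Pool.Agent.T3h73.SN.Def.Indep ℓ e)
    (S₀ : Finset (HeightOneSpectrum (𝓞 K))) (η : Kˣ)
    (A : Finset ℕ) (hA : A.Nonempty) (hA' : ∀ a ∈ A, 1 ≤ a ∧ a < ℓ) :
    (∀ s : ℝ, 1 < s → Summable (fun c : Kˣ ⧸ (powMonoidHom ℓ : Kˣ →* Kˣ).range =>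
      ht ℓ (Quotient.out c) ^ (-s))) ∧
    Tendsto (fun s : ℝ => csum ℓ (Near ℓ S₀ η) s) (𝓝[>] 1) atTop ∧
    1 - (ℓ : ℝ) / ((ℓ : ℝ) ^ 2 - 1) ≤ ∏' i : ℕ, (1 + ((ℓ : ℝ) ^ (i + 1))⁻¹)⁻¹ ∧
    ∀ ε : ℝ, 0 < ε → ∀ᶠ s : ℝ in 𝓝[>] 1,
      (1 - A.card * (1 - ∏' i : ℕ, (1 + ((ℓ : ℝ) ^ (i + 1))⁻¹)⁻¹) - ε) * csum ℓ (Near ℓ S₀ η) s ≤
        csum ℓ (fun δ => Near ℓ S₀ η δ ∧ ∀ a ∈ A,
          Pool.Agent.T3h73.SN.Def.Minimal ℓ K (Pool.Agent.T3h73.SN.Def.crv e ((δ : K) ^ a))) s :=
  let h := Pool.Agent.T3h73.SN.final hℓ h2 hn hn2 hζ e he hind S₀ η A hA hA'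
  ⟨h.1, h.2.1, Pool.Agent.T3h73.SD.Uni.kap_ge hℓ.two_le, h.2.2⟩

end Pool.Agent.Results.MP_a43263_nt.SuperellipticTwistDensity
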